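import Pool.Agent.helper14.SU.SQC

/-!
# Row su:RHO (MP_c66272_nt): the number of roots of `l^2 D = D'` modulo an odd `f`
-/

set_option autoImplicit false

namespace Pool.Agent.SU

open Finset

noncomputable def RHO_af (N : ℤ) : ArithmeticFunction ℤ := ⟨fun g => if g = 0 then 0 else jacobiSym N g, by simp⟩

lemma RHO_af_apply (N : ℤ) (g : ℕ) (hg : g ≠ 0) : RHO_af N g = jacobiSym N g := by
  simp [RHO_af, hg]

lemma RHO_af_mult (N : ℤ) : (RHO_af N).IsMultiplicative := by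
  rw [ArithmeticFunction.IsMultiplicative.iff_ne_zero]
  refine ⟨?_, ?_⟩
  · rw [RHO_af_apply N 1 one_ne_zero, jacobiSym.one_right]
  · intro m n hm hn _
    rw [RHO_af_apply N _ (mul_ne_zero hm hn), RHO_af_apply N _ hm, RHO_af_apply N _ hn]
    exact jacobiSym.mul_right' N hm hn

lemma RHO_rr_eq (N f : ℕ) : rr N f = (RHO_af N * ((ArithmeticFunction.zeta : ArithmeticFunction ℕ) : ArithmeticFunction ℤ)) f := by
  rw [ArithmeticFunction.coe_mul_zeta_apply]
  unfold rr
  apply sum_congr rfl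
  intro g hg
  rw [RHO_af_apply]
  exact (Nat.pos_of_mem_divisors hg).ne'

lemma RHO_rr_mul (N a b : ℕ) (h : a.Coprime b) : rr N (a * b) = rr N a * rr N b := by
  rw [RHO_rr_eq, RHO_rr_eq, RHO_rr_eq]
  exact ((RHO_af_mult N).mul (ArithmeticFunction.isMultiplicative_zeta.natCast)).map_mul_of_coprime h

lemma RHO_rr_pp (N p b : ℕ) (hp : p.Prime) : rr N (p ^ b) = ∑ i ∈ range (b + 1), jacobiSym N p ^ i := by
  unfold rr
  rw [Nat.sum_divisors_prime_pow hp]
  apply sum_congr rfl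
  intro i _
  rw [jacobiSym.pow_right]

lemma RHO_geom (x : ℤ) (hx : x = 0 ∨ x = 1 ∨ x = -1) (b : ℕ) :
    0 ≤ ∑ i ∈ range (b + 1), x ^ i ∧ ∑ i ∈ range (b + 1), x ^ i ≤ b + 1 := by
  rcases hx with rfl | rfl | rfl
  · rw [sum_range_succ']
    have : ∑ i ∈ range b, (0 : ℤ) ^ (i + 1) = 0 := sum_eq_zero (fun i _ => by simp)
    rw [this]
    constructor <;> simp
  · simp
    omega
  · have h : ∀ n : ℕ, ∑ i ∈ range n, (-1 : ℤ) ^ i = if Even n then 0 else 1 := fun n => neg_one_geom_sum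
    rw [h]
    split_ifs
    · exact ⟨le_refl _, by positivity⟩
    · exact ⟨by norm_num, by linarith [Int.natCast_nonneg b]⟩

lemma RHO_rr_bounds (N : ℕ) : ∀ f : ℕ, f ≠ 0 → 0 ≤ rr N f ∧ rr N f ≤ f.divisors.card := by
  intro f
  induction f using Nat.recOnPosPrimePosCoprime with
  | prime_pow p n hp hn =>
    intro _
    rw [RHO_rr_pp N p n hp, Nat.divisors_prime_pow hp, card_map, card_range]
    have := RHO_geom (jacobiSym N p) (jacobiSym.trichotomy _ _) n
    exact ⟨this.1, by push_cast; exact this.2⟩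
  | zero => intro h; exact absurd rfl h
  | one => intro _; unfold rr; simp
  | coprime a b ha hb hab iha ihb =>
    intro _
    obtain ⟨h1, h2⟩ := iha (by omega)
    obtain ⟨h3, h4⟩ := ihb (by omega)
    rw [RHO_rr_mul N a b hab, hab.card_divisors_mul]
    refine ⟨mul_nonneg h1 h3, ?_⟩
    push_cast
    exact mul_le_mul h2 h4 h3 (by positivity)

/-- count of roots -/
def RHO_N (D D' f : ℕ) : ℕ := ((range f).filter (fun l : ℕ => (f : ℤ) ∣ (l : ℤ) ^ 2 * D - D')).card

lemma RHO_N_mul (D D' a b : ℕ) (ha : 0 < a) (hb : 0 < b) (hab : a.Coprime b) :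
    RHO_N D D' (a * b) ≤ RHO_N D D' a * RHO_N D D' b := by
  unfold RHO_N
  rw [← card_product]
  apply card_le_card_of_injOn (fun l => (l % a, l % b))
  · intro l hl
    rw [Finset.mem_coe, mem_filter, mem_range] at hl
    rw [Finset.mem_coe, mem_product, mem_filter, mem_filter, mem_range, mem_range]
    have key : ∀ m : ℕ, 0 < m → (m : ℤ) ∣ (l : ℤ) ^ 2 * D - D' → (m : ℤ) ∣ (((l % m : ℕ) : ℤ)) ^ 2 * D - D' := by
      intro m _ hm
      have h5 : (m : ℤ) ∣ (l : ℤ) - ((l % m : ℕ) : ℤ) := by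
        rw [Int.natCast_mod]
        exact Int.dvd_self_sub_emod
      have h6 : (((l % m : ℕ) : ℤ)) ^ 2 * D - D' = ((l : ℤ) ^ 2 * D - D') - ((l : ℤ) - ((l % m : ℕ) : ℤ)) * (((l : ℤ) + ((l % m : ℕ) : ℤ)) * D) := by ring
      rw [h6]
      exact dvd_sub hm (Dvd.dvd.mul_right h5 _)
    have hA : (a : ℤ) ∣ (l : ℤ) ^ 2 * D - D' := (Dvd.intro _ (by push_cast; rfl)).trans hl.2
    have hB : (b : ℤ) ∣ (l : ℤ) ^ 2 * D - D' := (Dvd.intro_left _ (by push_cast; rfl)).trans hl.2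
    exact ⟨⟨Nat.mod_lt _ ha, key a ha hA⟩, ⟨Nat.mod_lt _ hb, key b hb hB⟩⟩
  · intro x hx y hy hxy
    rw [Finset.mem_coe, mem_filter, mem_range] at hx hy
    simp only [Prod.mk.injEq] at hxy
    have h1 : x ≡ y [MOD a * b] := (Nat.modEq_and_modEq_iff_modEq_mul hab).mp ⟨hxy.1, hxy.2⟩
    exact Nat.ModEq.eq_of_lt_of_lt h1 hx.1 hy.1

lemma RHO_N_pp (D D' p b : ℕ) (hp : p.Prime) (hp2 : p ≠ 2) (hb : 1 ≤ b) (hcop : ¬ p ∣ D * D') :
    ((RHO_N D D' (p ^ b) : ℕ) : ℤ) ≤ rr (D * D') (p ^ b) := by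
  haveI : Fact p.Prime := ⟨hp⟩
  have hD : ¬ p ∣ D := fun h => hcop (h.mul_right _)
  have hD' : ¬ p ∣ D' := fun h => hcop (h.mul_left _)
  rw [RHO_rr_pp _ p b hp]
  have hJne : jacobiSym ((D * D' : ℕ) : ℤ) p ≠ 0 := by
    have : jacobiSym ((D * D' : ℕ) : ℤ) p = jacobiSym ((D * D' : ℕ) : ℤ) p := rfl
    rw [Ne, jacobiSym.eq_zero_iff_not_coprime]
    rw [not_not]
    rw [Int.gcd_natCast_natCast]
    exact (Nat.Coprime.symm ((Nat.Prime.coprime_iff_not_dvd hp).mpr hcop))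
  rcases jacobiSym.trichotomy ((D * D' : ℕ) : ℤ) p with h | h | h
  · exact absurd h hJne
  · rw [h]
    have h2 : RHO_N D D' (p ^ b) ≤ 2 := by
      have := SQC_two p b (D : ℤ) (D' : ℤ) hp hp2 (by exact_mod_cast hD) (by exact_mod_cast hD') hb
      unfold RHO_N
      refine le_trans (le_of_eq ?_) this
      congr 1
      apply filter_congr
      intro x _
      rw [mul_comm ((x : ℤ) ^ 2)]
    simp only [one_pow, sum_const, card_range, nsmul_eq_mul, mul_one]
    push_cast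
    have h3 : ((RHO_N D D' (p ^ b) : ℕ) : ℤ) ≤ 2 := by exact_mod_cast h2
    have h4 : (1 : ℤ) ≤ b := by exact_mod_cast hb
    linarith
  · have h0 : RHO_N D D' (p ^ b) = 0 := by
      unfold RHO_N
      rw [card_eq_zero, filter_eq_empty_iff]
      intro l _ hl
      have hpb : (p : ℤ) ∣ ((p ^ b : ℕ) : ℤ) := by
        push_cast
        exact dvd_pow_self _ (by omega)
      have h1 := hpb.trans hl
      have h2 : jacobiSym ((D * D' : ℕ) : ℤ) p = jacobiSym (((l : ℤ) * D) ^ 2) p := by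
        apply jacobiSym.mod_left'
        have h3 : ((p : ℕ) : ℤ) ∣ ((l : ℤ) * D) ^ 2 - ((D * D' : ℕ) : ℤ) := by
          have h4 : ((l : ℤ) * D) ^ 2 - ((D * D' : ℕ) : ℤ) = ((l : ℤ) ^ 2 * D - D') * D := by push_cast; ring
          rw [h4]
          exact Dvd.dvd.mul_right h1 _
        exact Int.modEq_iff_dvd.mpr h3
      rw [jacobiSym.pow_left] at h2
      rw [h] at h2
      nlinarith [sq_nonneg (jacobiSym ((l : ℤ) * D) p)]
    rw [h0]
    simpa using (RHO_geom _ (jacobiSym.trichotomy ((D * D' : ℕ) : ℤ) p) b).1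

/-- **RHO** -/
theorem RHO : RHO_stmt := by
  refine ⟨?_, fun f N hf => RHO_rr_bounds N f hf.pos.ne'⟩
  intro f
  induction f using Nat.recOnPosPrimePosCoprime with
  | prime_pow p n hp hn =>
    intro D D' hodd hcop
    have hp2 : p ≠ 2 := by
      rintro rfl
      have h1 : Even (2 ^ n) := (even_two).pow_of_ne_zero (by omega)
      exact (Nat.not_even_iff_odd.mpr hodd) h1
    apply RHO_N_pp D D' p n hp hp2 hn
    have h1 : p.Coprime (D * D') := Nat.Coprime.coprime_dvd_left (dvd_pow_self p (by omega)) hcop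
    exact (Nat.Prime.coprime_iff_not_dvd hp).mp h1
  | zero => intro D D' h; exact absurd h (by decide)
  | one =>
    intro D D' _ _
    have : ((range 1).filter (fun l : ℕ => ((1 : ℕ) : ℤ) ∣ (l : ℤ) ^ 2 * D - D')).card ≤ 1 := by
      refine (card_filter_le _ _).trans ?_
      simp
    have h2 : rr (D * D') 1 = 1 := by unfold rr; simp
    rw [h2]
    exact_mod_cast this
  | coprime a b ha hb hab iha ihb =>
    intro D D' hodd hcop
    have hoa : Odd a := (Nat.odd_mul.mp hodd).1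
    have hob : Odd b := (Nat.odd_mul.mp hodd).2
    have hca : a.Coprime (D * D') := Nat.Coprime.coprime_mul_right hcop
    have hcb : b.Coprime (D * D') := Nat.Coprime.coprime_mul_left hcop
    have h1 := iha D D' hoa hca
    have h2 := ihb D D' hob hcb
    have h3 := RHO_N_mul D D' a b (by omega) (by omega) hab
    rw [RHO_rr_mul _ a b hab]
    have h4 : ((RHO_N D D' (a * b) : ℕ) : ℤ) ≤ ((RHO_N D D' a : ℕ) : ℤ) * ((RHO_N D D' b : ℕ) : ℤ) := by exact_mod_cast h3
    refine le_trans h4 ?_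
    have h5 := (RHO_rr_bounds (D * D') a (by omega)).1
    exact mul_le_mul h1 h2 (by positivity) h5

end Pool.Agent.SU
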