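import Pool.Agent.helper40.SU.SpecC

/-!
# Row su:SQC (MP_c66272_nt): solutions of `A x^2 = c` modulo a prime power
-/

set_option autoImplicit false

namespace Pool.Agent.SU

open Finset

/-- the unit case: at most two solutions modulo an odd prime power -/
lemma SQC_two (p b : ℕ) (A c : ℤ) (hp : p.Prime) (hp2 : p ≠ 2) (hA : ¬ (p : ℤ) ∣ A) (hc : ¬ (p : ℤ) ∣ c) (hb : 1 ≤ b) :
    ((range (p ^ b)).filter (fun x : ℕ => ((p ^ b : ℕ) : ℤ) ∣ A * (x : ℤ) ^ 2 - c)).card ≤ 2 := by
  have hpZ : Prime (p : ℤ) := Nat.prime_iff_prime_int.mp hp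
  have hpb : (p : ℤ) ∣ ((p ^ b : ℕ) : ℤ) := by
    push_cast
    exact dvd_pow_self _ (by omega)
  rcases (((range (p ^ b)).filter (fun x : ℕ => ((p ^ b : ℕ) : ℤ) ∣ A * (x : ℤ) ^ 2 - c))).eq_empty_or_nonempty with h0 | ⟨x0, hx0⟩
  · rw [h0]; simp
  rw [mem_filter, mem_range] at hx0
  have hsub : ((range (p ^ b)).filter (fun x : ℕ => ((p ^ b : ℕ) : ℤ) ∣ A * (x : ℤ) ^ 2 - c)) ⊆ {x0, p ^ b - x0} := by
    intro x hx
    rw [mem_filter, mem_range] at hx
    rw [mem_insert, mem_singleton]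
    have hnx : ¬ (p : ℤ) ∣ (x : ℤ) := by
      intro h
      apply hc
      have h1 := hpb.trans hx.2
      have h2 : (p : ℤ) ∣ A * (x : ℤ) ^ 2 := Dvd.dvd.mul_left (dvd_pow h (by norm_num)) _
      have h3 := dvd_sub h2 h1
      have h4 : A * (x : ℤ) ^ 2 - (A * (x : ℤ) ^ 2 - c) = c := by ring
      rwa [h4] at h3
    have hd : ((p ^ b : ℕ) : ℤ) ∣ A * (((x : ℤ) - x0) * ((x : ℤ) + x0)) := by
      have := dvd_sub hx.2 hx0.2
      have h4 : (A * (x : ℤ) ^ 2 - c) - (A * (x0 : ℤ) ^ 2 - c) = A * (((x : ℤ) - x0) * ((x : ℤ) + x0)) := by ring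
      rwa [h4] at this
    have hcopA : IsCoprime ((p ^ b : ℕ) : ℤ) A := by
      push_cast
      exact IsCoprime.pow_left ((Prime.coprime_iff_not_dvd hpZ).mpr hA)
    have hd2 := hcopA.dvd_of_dvd_mul_left hd
    have h2x : ¬ (p : ℤ) ∣ 2 * (x : ℤ) := by
      intro h
      rcases hpZ.dvd_or_dvd h with h | h
      · have : p ∣ 2 := by exact_mod_cast h
        exact hp2 ((Nat.prime_dvd_prime_iff_eq hp Nat.prime_two).mp this)
      · exact hnx h
    by_cases hm : (p : ℤ) ∣ (x : ℤ) - x0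
    · have hpl : ¬ (p : ℤ) ∣ (x : ℤ) + x0 := by
        intro h
        apply h2x
        have := dvd_add hm h
        have h4 : ((x : ℤ) - x0) + ((x : ℤ) + x0) = 2 * x := by ring
        rwa [h4] at this
      have hcop : IsCoprime ((p ^ b : ℕ) : ℤ) ((x : ℤ) + x0) := by
        push_cast
        exact IsCoprime.pow_left ((Prime.coprime_iff_not_dvd hpZ).mpr hpl)
      have h5 := hcop.dvd_of_dvd_mul_right hd2
      left
      have h6 : ((x : ℤ) - x0) = 0 := by
        apply Int.eq_zero_of_abs_lt_dvd h5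
        rw [abs_lt]
        have := hx.1
        have := hx0.1
        constructor <;> push_cast <;> have e1 : ((x : ℕ) : ℤ) < ((p ^ b : ℕ) : ℤ) := by exact_mod_cast hx.1
        all_goals have e2 : ((x0 : ℕ) : ℤ) < ((p ^ b : ℕ) : ℤ) := by exact_mod_cast hx0.1
        all_goals push_cast at e1 e2
        all_goals have e3 : (0 : ℤ) ≤ x := Int.natCast_nonneg _
        all_goals have e4 : (0 : ℤ) ≤ x0 := Int.natCast_nonneg _
        all_goals linarith
      omega
    · have hcop : IsCoprime ((p ^ b : ℕ) : ℤ) ((x : ℤ) - x0) := by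
        push_cast
        exact IsCoprime.pow_left ((Prime.coprime_iff_not_dvd hpZ).mpr hm)
      have h5 := hcop.dvd_of_dvd_mul_left hd2
      have h6 : p ^ b ∣ x + x0 := by exact_mod_cast h5
      obtain ⟨k, hk⟩ := h6
      have hxpos : 0 < x := by
        rcases Nat.eq_zero_or_pos x with h | h
        · exfalso; apply hnx; rw [h]; simp
        · exact h
      have hk1 : k < 2 := by
        by_contra hk2
        have : p ^ b * 2 ≤ p ^ b * k := Nat.mul_le_mul_left _ (by omega)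
        omega
      have hk0 : k ≠ 0 := by
        rintro rfl
        omega
      have hk3 : k = 1 := by omega
      subst hk3
      right
      omega
  calc _ ≤ ({x0, p ^ b - x0} : Finset ℕ).card := card_le_card hsub
    _ ≤ 2 := card_le_two

/-- **SQC** -/
theorem SQC : SQC_stmt := by
  intro p b A c hp hp2 hA
  have hpZ : Prime (p : ℤ) := Nat.prime_iff_prime_int.mp hp
  have hpR : (1 : ℝ) ≤ (p : ℝ) := by exact_mod_cast hp.one_lt.le
  induction b using Nat.strong_induction_on generalizing c with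
  | _ b ih =>
    have hone : (1 : ℝ) ≤ √((p : ℝ) ^ b) := by
      rw [Real.one_le_sqrt]
      exact one_le_pow₀ hpR
    by_cases hb : b = 0
    · subst hb
      have : ((range (p ^ 0)).filter (fun x : ℕ => ((p ^ 0 : ℕ) : ℤ) ∣ A * (x : ℤ) ^ 2 - c)).card ≤ 1 := by
        refine (card_filter_le _ _).trans ?_
        simp
      have h2 : ((((range (p ^ 0)).filter (fun x : ℕ => ((p ^ 0 : ℕ) : ℤ) ∣ A * (x : ℤ) ^ 2 - c)).card : ℕ) : ℝ) ≤ 1 := by
        exact_mod_cast this
      linarith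
    by_cases hc : (p : ℤ) ∣ c
    swap
    · have := SQC_two p b A c hp hp2 hA hc (by omega)
      have h2 : ((((range (p ^ b)).filter (fun x : ℕ => ((p ^ b : ℕ) : ℤ) ∣ A * (x : ℤ) ^ 2 - c)).card : ℕ) : ℝ) ≤ 2 := by
        exact_mod_cast this
      linarith
    -- all solutions are divisible by p
    have hdx : ∀ x : ℕ, ((p ^ b : ℕ) : ℤ) ∣ A * (x : ℤ) ^ 2 - c → p ∣ x := by
      intro x hx
      have hpb : (p : ℤ) ∣ ((p ^ b : ℕ) : ℤ) := by
        push_cast
        exact dvd_pow_self _ (by omega)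
      have h1 := dvd_add (hpb.trans hx) hc
      have h4 : A * (x : ℤ) ^ 2 - c + c = A * (x : ℤ) ^ 2 := by ring
      rw [h4] at h1
      rcases hpZ.dvd_or_dvd h1 with h | h
      · exact absurd h hA
      · exact_mod_cast hpZ.dvd_of_dvd_pow h
    by_cases hb1 : b = 1
    · subst hb1
      have hsub : ((range (p ^ 1)).filter (fun x : ℕ => ((p ^ 1 : ℕ) : ℤ) ∣ A * (x : ℤ) ^ 2 - c)) ⊆ {0} := by
        intro x hx
        rw [mem_filter, mem_range] at hx
        rw [mem_singleton]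
        have h1 := hdx x hx.2
        have h2 := hx.1
        rw [pow_one] at h2
        exact Nat.eq_zero_of_dvd_of_lt h1 h2
      have := card_le_card hsub
      rw [card_singleton] at this
      have h2 : ((((range (p ^ 1)).filter (fun x : ℕ => ((p ^ 1 : ℕ) : ℤ) ∣ A * (x : ℤ) ^ 2 - c)).card : ℕ) : ℝ) ≤ 1 := by
        exact_mod_cast this
      linarith
    obtain ⟨k, rfl⟩ : ∃ k, b = k + 2 := ⟨b - 2, by omega⟩
    rcases (((range (p ^ (k + 2))).filter (fun x : ℕ => ((p ^ (k + 2) : ℕ) : ℤ) ∣ A * (x : ℤ) ^ 2 - c))).eq_empty_or_nonempty with h0 | ⟨x0, hx0⟩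
    · rw [h0]
      simp only [card_empty, Nat.cast_zero]
      positivity
    rw [mem_filter, mem_range] at hx0
    have hc2 : (p : ℤ) ^ 2 ∣ c := by
      obtain ⟨y, hy⟩ := hdx x0 hx0.2
      have h1 : (p : ℤ) ^ 2 ∣ ((p ^ (k + 2) : ℕ) : ℤ) := by
        push_cast
        exact pow_dvd_pow _ (by omega)
      have h2 := h1.trans hx0.2
      have h3 : (p : ℤ) ^ 2 ∣ A * (x0 : ℤ) ^ 2 := by
        rw [hy]
        push_cast
        exact ⟨A * (y : ℤ) ^ 2, by ring⟩
      have := dvd_sub h3 h2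
      have h4 : A * (x0 : ℤ) ^ 2 - (A * (x0 : ℤ) ^ 2 - c) = c := by ring
      rwa [h4] at this
    obtain ⟨c', hc'⟩ := hc2
    have hihk := ih k (by omega) c'
    have hinj : ((range (p ^ (k + 2))).filter (fun x : ℕ => ((p ^ (k + 2) : ℕ) : ℤ) ∣ A * (x : ℤ) ^ 2 - c)).card ≤
        ((range p) ×ˢ ((range (p ^ k)).filter (fun x : ℕ => ((p ^ k : ℕ) : ℤ) ∣ A * (x : ℤ) ^ 2 - c'))).card := by
      apply card_le_card_of_injOn (fun x => ((x / p) / p ^ k, (x / p) % p ^ k))
      · intro x hx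
        rw [Finset.mem_coe, mem_filter, mem_range] at hx
        rw [Finset.mem_coe, mem_product, mem_filter, mem_range, mem_range]
        obtain ⟨y, hy⟩ := hdx x hx.2
        have hxp : x / p = y := by
          rw [hy]; exact Nat.mul_div_cancel_left _ hp.pos
        have hylt : y < p ^ k * p := by
          have := hx.1
          rw [hy] at this
          have h2 : p ^ (k + 2) = p * (p ^ k * p) := by ring
          rw [h2] at this
          exact Nat.lt_of_mul_lt_mul_left this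
        simp only [hxp]
        refine ⟨?_, Nat.mod_lt _ (pow_pos hp.pos _), ?_⟩
        · exact Nat.div_lt_of_lt_mul hylt
        · have h1 : ((p ^ k : ℕ) : ℤ) ∣ A * (y : ℤ) ^ 2 - c' := by
            have h2 := hx.2
            rw [hy, hc'] at h2
            have h3 : A * ((p * y : ℕ) : ℤ) ^ 2 - (p : ℤ) ^ 2 * c' = (p : ℤ) ^ 2 * (A * (y : ℤ) ^ 2 - c') := by
              push_cast; ring
            rw [h3] at h2
            have h4 : ((p ^ (k + 2) : ℕ) : ℤ) = (p : ℤ) ^ 2 * ((p ^ k : ℕ) : ℤ) := by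
              push_cast; ring
            rw [h4] at h2
            exact Int.dvd_of_mul_dvd_mul_left (pow_ne_zero _ (by exact_mod_cast hp.ne_zero)) h2
          have h5 : ((p ^ k : ℕ) : ℤ) ∣ (y : ℤ) - ((y % p ^ k : ℕ) : ℤ) := by
            have := Int.emod_emod_of_dvd (y : ℤ) (dvd_refl ((p ^ k : ℕ) : ℤ))
            rw [Int.natCast_mod]
            exact Int.dvd_self_sub_emod
          obtain ⟨t, ht⟩ := h5
          have h6 : A * (((y % p ^ k : ℕ) : ℤ)) ^ 2 - c' = (A * (y : ℤ) ^ 2 - c') - ((p ^ k : ℕ) : ℤ) * (A * t * ((y : ℤ) + ((y % p ^ k : ℕ) : ℤ))) := by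
            have h7 : ((p ^ k : ℕ) : ℤ) * (A * t * ((y : ℤ) + ((y % p ^ k : ℕ) : ℤ))) = (((p ^ k : ℕ) : ℤ) * t) * (A * ((y : ℤ) + ((y % p ^ k : ℕ) : ℤ))) := by ring
            rw [h7, ← ht]
            ring
          rw [h6]
          exact dvd_sub h1 (dvd_mul_right _ _)
      · intro x hx x' hx' hxx
        rw [Finset.mem_coe, mem_filter, mem_range] at hx hx'
        simp only [Prod.mk.injEq] at hxx
        have h1 : x / p = x' / p := by
          rw [← Nat.div_add_mod (x / p) (p ^ k), ← Nat.div_add_mod (x' / p) (p ^ k), hxx.1, hxx.2]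
        obtain ⟨y, hy⟩ := hdx x hx.2
        obtain ⟨y', hy'⟩ := hdx x' hx'.2
        rw [hy, hy', Nat.mul_div_cancel_left _ hp.pos, Nat.mul_div_cancel_left _ hp.pos] at h1
        rw [hy, hy', h1]
    rw [card_product, card_range] at hinj
    have hinj' : ((((range (p ^ (k + 2))).filter (fun x : ℕ => ((p ^ (k + 2) : ℕ) : ℤ) ∣ A * (x : ℤ) ^ 2 - c)).card : ℕ) : ℝ) ≤
        (p : ℝ) * ((((range (p ^ k)).filter (fun x : ℕ => ((p ^ k : ℕ) : ℤ) ∣ A * (x : ℤ) ^ 2 - c')).card : ℕ) : ℝ) := by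
      exact_mod_cast hinj
    refine hinj'.trans ?_
    calc (p : ℝ) * ((((range (p ^ k)).filter (fun x : ℕ => ((p ^ k : ℕ) : ℤ) ∣ A * (x : ℤ) ^ 2 - c')).card : ℕ) : ℝ)
        ≤ p * (2 * √((p : ℝ) ^ k)) := mul_le_mul_of_nonneg_left hihk (by positivity)
      _ = 2 * √((p : ℝ) ^ (k + 2)) := by
          have : (p : ℝ) ^ (k + 2) = p ^ 2 * p ^ k := by ring
          rw [this, Real.sqrt_mul (by positivity), Real.sqrt_sq (by positivity)]
          ring

end Pool.Agent.SU
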