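import Pool.Agent.helper40.SU.SpecC

/-!
# Row su:TRI (MP_c66272_nt): from quadruples to triples
-/

set_option autoImplicit false

namespace Pool.Agent.SU

open Finset

/-- `w, w'` in the class of `w₀` modulo `4 q` with `64 q` dividing `4 (w' - w)(w' + w)`: then `(w + w') / 2` is in the class of `w₀` -/
lemma TRI_half (q w₀ w w' s s' D D' : ℤ) (hq : Odd q) (hw0 : Odd w₀) (hw : (4 * q) ∣ w - w₀) (hw' : (4 * q) ∣ w' - w₀)
    (hs : (32 * q) ∣ s - s') (hD : (64 * q) ∣ D - D') (hs0 : True) (h : D * s ^ 2 + 4 * w ^ 2 = D' * s' ^ 2 + 4 * w' ^ 2) :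
    ∃ f e : ℤ, w = f - e ∧ w' = f + e ∧ (4 * q) ∣ f - w₀ ∧ 16 * e * f = D * s ^ 2 - D' * s' ^ 2 := by
  obtain ⟨a, ha⟩ := hw
  obtain ⟨b, hb⟩ := hw'
  have h1 : 64 * q ∣ s ^ 2 - s' ^ 2 := by
    obtain ⟨c, hc⟩ := hs
    have h2 : s = s' + 32 * q * c := by linarith
    refine ⟨c * s' + 16 * q * c ^ 2, ?_⟩
    rw [h2]; ring
  have h2 : 64 * q ∣ D * s ^ 2 - D' * s' ^ 2 := by
    have h3 : D * s ^ 2 - D' * s' ^ 2 = D * (s ^ 2 - s' ^ 2) + (D - D') * s' ^ 2 := by ring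
    rw [h3]
    exact dvd_add (Dvd.dvd.mul_left h1 _) (Dvd.dvd.mul_right hD _)
  have h3 : D * s ^ 2 - D' * s' ^ 2 = 32 * q * ((b - a) * (w₀ + 2 * q * (a + b))) := by
    have e1 : w = w₀ + 4 * q * a := by linarith
    have e2 : w' = w₀ + 4 * q * b := by linarith
    have e3 : D * s ^ 2 - D' * s' ^ 2 = 4 * w' ^ 2 - 4 * w ^ 2 := by linarith
    rw [e3, e1, e2]
    ring
  have hq0 : q ≠ 0 := by
    rintro rfl
    exact absurd hq (by decide)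
  have h4 : 2 ∣ (b - a) * (w₀ + 2 * q * (a + b)) := by
    rw [h3] at h2
    have h5 : 64 * q = (32 * q) * 2 := by ring
    rw [h5] at h2
    exact Int.dvd_of_mul_dvd_mul_left (by positivity) h2
  have h5 : ¬ (2 : ℤ) ∣ (w₀ + 2 * q * (a + b)) := by
    intro h6
    obtain ⟨k, hk⟩ := hw0
    obtain ⟨m, hm⟩ := h6
    rw [hk] at hm
    have h7 : 2 * (k + q * (a + b) - m) = -1 := by linarith
    omega
  have h6 : (2 : ℤ) ∣ b - a := by
    rcases Int.prime_two.dvd_or_dvd h4 with h | h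
    · exact h
    · exact absurd h h5
  obtain ⟨c, hc⟩ := h6
  refine ⟨w₀ + 2 * q * (a + b), 2 * q * (b - a), ?_, ?_, ?_, ?_⟩
  · linarith
  · linarith
  · refine ⟨a + c, ?_⟩
    have : b = a + 2 * c := by linarith
    rw [this]; ring
  · rw [h3]; ring

/-- **TRI** -/
theorem TRI : TRI_stmt := by
  intro q s₀ w₀ D D' T δ hq hw0 hD hD1 hD1' hT hδ hδ1
  have hw0odd : Odd w₀ := by
    have h1 : Nat.Coprime w₀ 2 := Nat.Coprime.coprime_mul_right_right hw0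
    exact (Nat.coprime_two_right).mp h1
  have mem_s : ∀ (E s : ℕ), s ∈ sW q s₀ T δ E ↔ (s < ⌊2 * T⌋₊ + 1 ∧ s ≡ s₀ [MOD 32 * q] ∧ T < √(E : ℝ) * s ∧ √(E : ℝ) * s ≤ (1 + δ ^ 2) * T) := by
    intro E s
    simp only [sW, mem_filter, mem_range]
  have mem_w : ∀ (w : ℕ), w ∈ wW q w₀ T δ ↔ (w < ⌊2 * T⌋₊ + 1 ∧ w ≡ w₀ [MOD 4 * q] ∧ T < w ∧ (w : ℝ) ≤ (1 + δ) * T) := by
    intro w
    simp only [wW, mem_filter, mem_range]
  -- the key: structure of a member of QQ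
  have key : ∀ x ∈ QQ q s₀ w₀ T δ D D', ∃ f : ℕ, ∃ e : ℤ, x.1.2 + x.2.2 = 2 * f ∧ (x.1.2 : ℤ) = f - e ∧ (x.2.2 : ℤ) = f + e ∧
      (4 * q : ℤ) ∣ (f : ℤ) - w₀ ∧ 16 * e * f = (D : ℤ) * (x.1.1 : ℤ) ^ 2 - (D' : ℤ) * (x.2.1 : ℤ) ^ 2 := by
    intro x hx
    simp only [QQ, mem_filter, mem_product] at hx
    obtain ⟨⟨⟨h1, h2⟩, ⟨h3, h4⟩⟩, h5⟩ := hx
    rw [mem_s] at h1 h3
    rw [mem_w] at h2 h4
    have d1 : (4 * (q : ℤ)) ∣ (x.1.2 : ℤ) - w₀ := by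
      have := (Nat.modEq_iff_dvd.mp h2.2.1.symm)
      push_cast at this
      exact this
    have d2 : (4 * (q : ℤ)) ∣ (x.2.2 : ℤ) - w₀ := by
      have := (Nat.modEq_iff_dvd.mp h4.2.1.symm)
      push_cast at this
      exact this
    have d3 : (32 * (q : ℤ)) ∣ (x.1.1 : ℤ) - x.2.1 := by
      have := (Nat.modEq_iff_dvd.mp (h3.2.1.trans h1.2.1.symm))
      push_cast at this
      exact this
    have d4 : (64 * (q : ℤ)) ∣ (D : ℤ) - D' := by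
      have := (Nat.modEq_iff_dvd.mp hD.symm)
      push_cast at this
      exact this
    have hh : (D : ℤ) * (x.1.1 : ℤ) ^ 2 + 4 * (x.1.2 : ℤ) ^ 2 = (D' : ℤ) * (x.2.1 : ℤ) ^ 2 + 4 * (x.2.2 : ℤ) ^ 2 := by
      exact_mod_cast h5
    obtain ⟨f, e, g1, g2, g3, g4⟩ := TRI_half (q : ℤ) (w₀ : ℤ) (x.1.2 : ℤ) (x.2.2 : ℤ) (x.1.1 : ℤ) (x.2.1 : ℤ) (D : ℤ) (D' : ℤ)
      (by exact_mod_cast hq) (by exact_mod_cast hw0odd) d1 d2 d3 d4 trivial hh
    have hf0 : 0 ≤ f := by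
      have e1 : (0 : ℤ) ≤ (x.1.2 : ℤ) := Int.natCast_nonneg _
      have e2 : (0 : ℤ) ≤ (x.2.2 : ℤ) := Int.natCast_nonneg _
      linarith
    obtain ⟨F, rfl⟩ := Int.eq_ofNat_of_zero_le hf0
    refine ⟨F, e, ?_, g1, g2, g3, g4⟩
    have : (x.1.2 : ℤ) + x.2.2 = 2 * F := by linarith
    exact_mod_cast this
  apply card_le_card_of_injOn (fun x => (x.1.1, x.2.1, (x.1.2 + x.2.2) / 2))
  · intro x hx
    rw [Finset.mem_coe] at hx
    obtain ⟨f, e, g0, g1, g2, g3, g4⟩ := key x hx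
    simp only [QQ, mem_filter, mem_product] at hx
    obtain ⟨⟨⟨h1, h2⟩, ⟨h3, h4⟩⟩, h5⟩ := hx
    have hf : (x.1.2 + x.2.2) / 2 = f := by omega
    rw [Finset.mem_coe]
    simp only [PP, mem_filter, mem_product, hf]
    refine ⟨⟨h1, h3, ?_⟩, ?_⟩
    · rw [mem_w] at h2 h4 ⊢
      have hR : ((x.1.2 : ℕ) : ℝ) + ((x.2.2 : ℕ) : ℝ) = 2 * (f : ℝ) := by exact_mod_cast g0
      refine ⟨by omega, ?_, ?_, ?_⟩
      · apply Nat.ModEq.symm
        rw [Nat.modEq_iff_dvd]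
        push_cast
        exact g3
      · linarith [h2.2.2.1, h4.2.2.1]
      · linarith [h2.2.2.2, h4.2.2.2]
    · exact ⟨16 * e, by rw [← g4]; ring⟩
  · intro x hx y hy hxy
    rw [Finset.mem_coe] at hx hy
    obtain ⟨f, e, g0, g1, g2, g3, g4⟩ := key x hx
    obtain ⟨f', e', g0', g1', g2', g3', g4'⟩ := key y hy
    have hf : (x.1.2 + x.2.2) / 2 = f := by omega
    have hf' : (y.1.2 + y.2.2) / 2 = f' := by omega
    simp only [Prod.mk.injEq, hf, hf'] at hxy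
    obtain ⟨k1, k2, k3⟩ := hxy
    have hfpos : 0 < f := by
      simp only [QQ, mem_filter, mem_product] at hx
      obtain ⟨⟨⟨h1, h2⟩, ⟨h3, h4⟩⟩, h5⟩ := hx
      rw [mem_w] at h2
      have : (0 : ℝ) < x.1.2 := by linarith [h2.2.2.1]
      have h6 : 0 < x.1.2 := by exact_mod_cast this
      omega
    subst k3
    rw [k1, k2] at g4
    have h7 : 16 * e * (f : ℤ) = 16 * e' * (f : ℤ) := by rw [g4, g4']
    have h8 : 16 * e = 16 * e' := mul_right_cancel₀ (by exact_mod_cast hfpos.ne') h7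
    have h9 : e = e' := by linarith
    subst h9
    have h10 : x.1.2 = y.1.2 := by
      have : (x.1.2 : ℤ) = y.1.2 := by linarith
      exact_mod_cast this
    have h11 : x.2.2 = y.2.2 := by
      have : (x.2.2 : ℤ) = y.2.2 := by linarith
      exact_mod_cast this
    exact Prod.ext (Prod.ext k1 h10) (Prod.ext k2 h11)

end Pool.Agent.SU
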